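import Pool.Agent.PLX.StmtsB

/-!
# Squad PLX (MP_1fc801_co), row MA1: the main theorem if there is no vertical vector
-/

set_option autoImplicit false

namespace Pool.Agent.PLX.H66

open Module Pool.Agent.PLX

namespace MA1

/-- the structure theorem with a larger constant -/
theorem struc_mono {d C C' : ℕ} (hC : C ≤ C') (h : Struc d C) : Struc d C' := by
  intro A _ _ E _ _ Φ f G Θ L j R h1 h2 h3 h4 h5 h6 h7 h8 h9
  have hL : 1 ≤ L := by linarith
  have hp : L ^ C ≤ L ^ C' := pow_le_pow_right₀ hL hC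
  obtain ⟨z, hz, hn⟩ := h A E Φ f G Θ L j R h1 h2 h3 h4 (hp.trans h5) h6
    (h7.mono (mul_le_mul_of_nonneg_right hp h6.le)) h8 h9
  exact ⟨z, hz, hn.trans (mul_le_mul_of_nonneg_right hp (sq_nonneg _))⟩

/-- a set of images of elements of size `≤ r` -/
theorem card_le {A : Type} [AddCommGroup A] {E : Type} [NormedAddCommGroup E] {Φ : A →+ ℂ}
    {f : A →+ E} {G : AddSubgroup A} (h : Dsc f G) {r : ℝ} {S : Finset ℂ}
    (hS : ∀ u ∈ S, ∃ x ∈ G, ‖f x‖ ≤ r ∧ Φ x = u) : S.card ≤ cnt f G r := by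
  classical
  have h1 : S ⊆ (bl f G r).image Φ := by
    intro u hu
    obtain ⟨x, h1, h2, rfl⟩ := hS u hu
    exact Finset.mem_image_of_mem _ ((mem_bl h).2 ⟨h1, h2⟩)
  exact (Finset.card_le_card h1).trans Finset.card_image_le

theorem finrank_bs {A : Type} [AddCommGroup A] [Module ℚ A] {E : Type} [NormedAddCommGroup E]
    (f : A →+ E) (G : AddSubgroup A) (r : ℝ) {d : ℕ} (hd : Dsc f G)
    (hf : FiniteDimensional ℚ (sp G)) (h : finrank ℚ (sp G) ≤ d) :
    finrank ℚ (bs f G r) ≤ d :=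
  (Submodule.finrank_mono (bs_le_sp hd)).trans h

/-- a slope of a vector has at least three elements -/
theorem three_le {S : Finset ℂ} (hneg : ∀ u ∈ S, -u ∈ S) (h0 : (0 : ℂ) ∈ S) {u : ℂ} (hu : u ∈ S)
    (hr : u.re ≠ 0) : 3 ≤ (S.filter (fun v => v.im = u.im / u.re * v.re)).card := by
  classical
  have hne : u ≠ 0 := fun h => hr (by rw [h]; rfl)
  have hnn : u ≠ -u := fun h => hne (self_eq_neg.1 h)
  have hs : u.im = u.im / u.re * u.re := (div_mul_cancel₀ _ hr).symm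
  have h4 : ({0, u, -u} : Finset ℂ) ⊆ S.filter (fun v => v.im = u.im / u.re * v.re) := by
    intro x hx
    simp only [Finset.mem_insert, Finset.mem_singleton] at hx
    rw [Finset.mem_filter]
    rcases hx with rfl | rfl | rfl
    · exact ⟨h0, by simp⟩
    · exact ⟨hu, hs⟩
    · refine ⟨hneg _ hu, ?_⟩
      rw [Complex.neg_im, Complex.neg_re, mul_neg, ← hs]
  have h5 : ({0, u, -u} : Finset ℂ).card = 3 := by
    rw [Finset.card_insert_of_notMem, Finset.card_pair hnn]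
    simp only [Finset.mem_insert, Finset.mem_singleton, not_or]
    exact ⟨hne.symm, fun h => hne (neg_eq_zero.1 h.symm)⟩
  calc 3 = ({0, u, -u} : Finset ℂ).card := h5.symm
    _ ≤ _ := Finset.card_le_card h4

theorem one_le_log {p : ℝ} (hp : 3 ≤ p) : 1 ≤ Real.log p := by
  rw [Real.le_log_iff_exp_le (by linarith)]
  have := Real.exp_one_lt_d9
  linarith

/-- the last estimate -/
theorem final (a : ℕ) (K₁ D n p M : ℝ) (hD : 1 ≤ D) (hK : 1 ≤ K₁) (hp : 3 ≤ p) (hpn : p ≤ n)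
    (hn : n ≤ D * p) (hM : 0 ≤ M)
    (h : Real.sqrt p ≤ (16 * (1 + Real.log n)) ^ a * (K₁ * M)) :
    1 / ((16 * (2 + Real.log D)) ^ a * K₁) * Real.sqrt p ≤ Real.log p ^ a * M := by
  have hlp := one_le_log hp
  have hlD : 0 ≤ Real.log D := Real.log_nonneg hD
  have hln : Real.log n ≤ Real.log D + Real.log p := by
    rw [← Real.log_mul (by linarith) (by linarith)]
    exact Real.log_le_log (by linarith) hn
  have hln1 : 1 ≤ Real.log n := hlp.trans (Real.log_le_log (by linarith) hpn)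
  have hYle : (16 * (1 + Real.log n)) ^ a ≤ (16 * (2 + Real.log D)) ^ a * Real.log p ^ a := by
    rw [← mul_pow]
    refine pow_le_pow_left₀ (by linarith) ?_ a
    nlinarith [mul_nonneg hlD (sub_nonneg.2 hlp)]
  have hC0 : 0 < (16 * (2 + Real.log D)) ^ a := by positivity
  rw [div_mul_eq_mul_div, one_mul, div_le_iff₀ (by positivity)]
  calc Real.sqrt p ≤ (16 * (1 + Real.log n)) ^ a * (K₁ * M) := h
    _ ≤ ((16 * (2 + Real.log D)) ^ a * Real.log p ^ a) * (K₁ * M) :=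
        mul_le_mul_of_nonneg_right hYle (mul_nonneg (by linarith) hM)
    _ = Real.log p ^ a * M * ((16 * (2 + Real.log D)) ^ a * K₁) := by ring

theorem sqrt_le {p Y X : ℝ} (hY : 1 ≤ Y) (hX : 0 ≤ X) (h : p ≤ Y * X ^ 2) :
    Real.sqrt p ≤ Y * X := by
  refine Real.sqrt_le_sqrt h |>.trans ?_
  rw [Real.sqrt_le_left (by positivity), mul_pow]
  refine mul_le_mul_of_nonneg_right ?_ (sq_nonneg X)
  nlinarith

/-- the element of a line -/
theorem mem_lz_slope {A : Type} [AddCommGroup A] {Φ : A →+ ℂ} {G : AddSubgroup A} {t : ℝ} {x : A}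
    (hx : x ∈ G) (h : (Φ x).im = t * (Φ x).re) : x ∈ lz Φ G ⟨1, t⟩ := by
  refine mem_lz.2 ⟨hx, (Φ x).re, ?_⟩
  apply Complex.ext
  · simp
  · simp [h, mul_comm]

end MA1

/-- **MA1** -/
theorem ma1 (hcov : CovStmt) (hslp : SlpStmt) (hstr : StrStmt) (heng : EngStmt) (hprp : PrpStmt)
    (hcls : ClsStmt) (hlad : LadStmt) (hpar : ParStmt) : Ma1Stmt := by
  classical
  intro d K
  obtain ⟨C₀, hC₀⟩ := hstr d
  obtain ⟨C, hC⟩ : ∃ C, C = C₀ + 1 := ⟨_, rfl⟩
  have hstruc : Struc d C := MA1.struc_mono (by omega) hC₀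
  have hC1 : 1 ≤ C := by omega
  obtain ⟨C₃, hC₃⟩ := hlad d C 3
  obtain ⟨Cc, hCc⟩ : ∃ Cc, Cc = (C₃ + 1) * C := ⟨_, rfl⟩
  have hCc1 : 1 ≤ Cc := by
    rw [hCc]
    exact Nat.succ_le_of_lt (Nat.mul_pos (Nat.succ_pos _) (by omega))
  obtain ⟨a, ha⟩ : ∃ a, a = Cc + C₃ := ⟨_, rfl⟩
  set K₁ := max K 1 with hK₁
  have hK1 : 1 ≤ K₁ := le_max_right _ _
  have h5d : (1 : ℝ) ≤ 5 ^ d := one_le_pow₀ (by norm_num)
  have h9d : (1 : ℝ) ≤ 9 ^ d := one_le_pow₀ (by norm_num)
  have h11d : (1 : ℝ) ≤ 11 ^ d := one_le_pow₀ (by norm_num)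
  obtain ⟨B, hB1, hB⟩ := hcls (18 * 5 ^ d) Cc (by linarith) hCc1
  set D : ℝ := 9 ^ d * K₁ with hD
  have hD1 : 1 ≤ D := one_le_mul_of_one_le_of_one_le h9d hK1
  refine ⟨min (1 / 3) (1 / (D * (B + 2))),
    1 / ((16 * (2 + Real.log D)) ^ a * (11 ^ d * K₁)), a, by positivity, ?_, ?_⟩
  · have := Real.log_nonneg hD1
    positivity
  intro A _ _ E _ _ Φ f G P p₀ hd hfd hrk hvert hPne hP hcard hnd
  have hrk' : ∀ r : ℝ, finrank ℚ (bs f G r) ≤ d := fun r => MA1.finrank_bs f G r hd hfd hrk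
  set p : ℝ := (P.card : ℝ) with hp
  have hp1 : 1 ≤ p := by
    have h1 : 1 ≤ P.card := Finset.card_pos.2 hPne
    exact Nat.one_le_cast.2 h1
  -- the differences in a system
  have hPsys : ∀ (A' : Type) (_ : AddCommGroup A') (E' : Type) (_ : NormedAddCommGroup E')
      (Φ' : A' →+ ℂ) (f' : A' →+ E') (G' : AddSubgroup A'), Dsc f' G' →
      (∀ q ∈ P, ∃ x ∈ G', ‖f' x‖ ≤ 1 ∧ Φ' x = q - p₀) → P.card ≤ cnt f' G' 1 := by
    intro A' _ E' _ Φ' f' G' hd' hP'
    have h2 : (P.image fun q => q - p₀).card = P.card :=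
      Finset.card_image_of_injective _ sub_left_injective
    rw [← h2]
    refine MA1.card_le (Φ := Φ') hd' fun u hu => ?_
    obtain ⟨q, hq, rfl⟩ := Finset.mem_image.1 hu
    exact hP' q hq
  -- the balls
  have hPn1 : p ≤ cnt f G 1 := by
    exact Nat.cast_le.2 (hPsys A _ E _ Φ f G hd hP)
  have hn14 : (cnt f G 1 : ℝ) ≤ cnt f G 4 := by exact_mod_cast cnt_mono hd (by norm_num)
  set n : ℝ := (cnt f G 4 : ℝ) with hn
  have hpn : p ≤ n := hPn1.trans hn14
  have hn1 : 1 ≤ n := hp1.trans hpn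
  have hc1 : (cnt f G 1 : ℝ) ≤ K₁ * p :=
    hcard.trans (mul_le_mul_of_nonneg_right (le_max_left _ _) (by linarith))
  have hcov4 : n ≤ 9 ^ d * cnt f G 1 := by
    have := hcov A E f G 4 1 d hd (by norm_num) (by norm_num) (hrk' 4)
    norm_num at this
    exact this
  have hcov8 : (cnt f G 8 : ℝ) ≤ 5 ^ d * n := by
    have := hcov A E f G 8 4 d hd (by norm_num) (by norm_num) (hrk' 8)
    norm_num at this
    exact this
  have hcov5 : (cnt f G 5 : ℝ) ≤ 11 ^ d * cnt f G 1 := by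
    have := hcov A E f G 5 1 d hd (by norm_num) (by norm_num) (hrk' 5)
    norm_num at this
    exact this
  have hnD : n ≤ D * p := by
    calc n ≤ 9 ^ d * cnt f G 1 := hcov4
      _ ≤ 9 ^ d * (K₁ * p) := mul_le_mul_of_nonneg_left hc1 (by linarith)
      _ = D * p := by rw [hD]; ring
  have h5K : (cnt f G 5 : ℝ) ≤ 11 ^ d * (K₁ * p) :=
    hcov5.trans (mul_le_mul_of_nonneg_left hc1 (by linarith))
  -- the number of distances is at least one
  have hnd1 : (1 : ℝ) ≤ nd P := by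
    obtain ⟨q, hq⟩ := hPne
    have : 0 < nd P := by
      unfold nd
      exact Finset.card_pos.2 ⟨_, Finset.mem_image_of_mem _ (Finset.mk_mem_product hq hq)⟩
    exact_mod_cast this
  have hp3 : 3 ≤ p := by
    have h1 : (nd P : ℝ) ≤ 1 / 3 * p :=
      hnd.trans (mul_le_mul_of_nonneg_right (min_le_left _ _) (by linarith))
    linarith
  -- the set of the images
  obtain ⟨S, hS⟩ : ∃ S : Finset ℂ, S = (bl f G 4).image Φ := ⟨_, rfl⟩
  have memS : ∀ u, u ∈ S ↔ ∃ x ∈ G, ‖f x‖ ≤ 4 ∧ Φ x = u := by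
    intro u
    rw [hS, Finset.mem_image]
    constructor
    · rintro ⟨x, hx, rfl⟩
      exact ⟨x, ((mem_bl hd).1 hx).1, ((mem_bl hd).1 hx).2, rfl⟩
    · rintro ⟨x, h1, h2, rfl⟩
      exact ⟨x, (mem_bl hd).2 ⟨h1, h2⟩, rfl⟩
  have hSneg : ∀ u ∈ S, -u ∈ S := by
    intro u hu
    obtain ⟨x, h1, h2, rfl⟩ := (memS u).1 hu
    exact (memS _).2 ⟨-x, G.neg_mem h1, by rw [map_neg, norm_neg]; exact h2, map_neg Φ x⟩
  have hS0 : (0 : ℂ) ∈ S :=
    (memS 0).2 ⟨0, G.zero_mem, by rw [map_zero, norm_zero]; norm_num, map_zero Φ⟩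
  have hSre : ∀ u ∈ S, u.re = 0 → u = 0 := by
    intro u hu h0
    obtain ⟨x, h1, h2, rfl⟩ := (memS u).1 hu
    exact hvert x h1 h2 h0
  have hSn : (S.card : ℝ) ≤ n := by
    exact Nat.cast_le.2 (MA1.card_le (Φ := Φ) hd fun u hu => (memS u).1 hu)
  -- energy
  obtain ⟨T, hT⟩ : ∃ T : Finset ℝ,
    T = (S.filter (fun u => u ≠ 0)).image (fun u => u.im / u.re) := ⟨_, rfl⟩
  obtain ⟨m, hm⟩ : ∃ m : ℝ → ℕ, m = fun t => (S.filter (fun u => u.im = t * u.re)).card :=
    ⟨_, rfl⟩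
  have hmt : ∀ t, m t = (S.filter (fun u => u.im = t * u.re)).card := fun t => by rw [hm]
  obtain ⟨X, hX⟩ : ∃ X : ℝ, X = ∑ t ∈ T, (m t : ℝ) ^ 2 := ⟨_, rfl⟩
  have hX0 : 0 ≤ X := by
    rw [hX]
    exact Finset.sum_nonneg fun t _ => sq_nonneg _
  have hBn : B * n ≤ X := by
    have h1 := heng P S (by
      intro a ha b hb a' ha' b' hb'
      obtain ⟨x1, g1, l1, e1⟩ := hP a ha
      obtain ⟨x2, g2, l2, e2⟩ := hP b hb
      obtain ⟨x3, g3, l3, e3⟩ := hP a' ha'
      obtain ⟨x4, g4, l4, e4⟩ := hP b' hb'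
      refine (memS _).2 ⟨(x1 - x2) + (x3 - x4),
        G.add_mem (G.sub_mem g1 g2) (G.sub_mem g3 g4), ?_, ?_⟩
      · rw [map_add, map_sub, map_sub]
        have n1 := norm_add_le (f x1 - f x2) (f x3 - f x4)
        have n2 := norm_sub_le (f x1) (f x2)
        have n3 := norm_sub_le (f x3) (f x4)
        linarith
      · rw [map_add, map_sub, map_sub, e1, e2, e3, e4]
        ring)
    have h2 := hprp S hSre
    have h3 : ((((S ×ˢ S).filter
        (fun p => p.1.re * p.2.re + p.1.im * p.2.im = 0)).card : ℕ) : ℝ) ≤ 2 * n + X := by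
      have h4 : ((((S ×ˢ S).filter
        (fun p => p.1.re * p.2.re + p.1.im * p.2.im = 0)).card : ℕ) : ℝ) ≤
          ((2 * S.card + ∑ t ∈ T, (m t) ^ 2 : ℕ) : ℝ) := by
        rw [hT, hm]
        exact_mod_cast h2
      push_cast at h4
      rw [hX]
      linarith
    have h5 : p ^ 2 ≤ nd P * (2 * n + X) :=
      h1.trans (mul_le_mul_of_nonneg_left h3 (Nat.cast_nonneg _))
    have h6 : (nd P : ℝ) ≤ 1 / (D * (B + 2)) * p :=
      hnd.trans (mul_le_mul_of_nonneg_right (min_le_right _ _) (by linarith))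
    have h7 : p ^ 2 ≤ 1 / (D * (B + 2)) * p * (2 * n + X) :=
      h5.trans (mul_le_mul_of_nonneg_right h6 (by linarith))
    have h8 : 0 < D * (B + 2) := mul_pos (by linarith) (by linarith)
    have h9 : p * (D * (B + 2)) ≤ 2 * n + X := by
      have h10 : p * (p * (D * (B + 2))) ≤ p * (2 * n + X) := by
        have h11 : 1 / (D * (B + 2)) * p * (2 * n + X) * (D * (B + 2)) = p * (2 * n + X) := by
          field_simp
        calc p * (p * (D * (B + 2))) = p ^ 2 * (D * (B + 2)) := by ring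
          _ ≤ 1 / (D * (B + 2)) * p * (2 * n + X) * (D * (B + 2)) :=
              mul_le_mul_of_nonneg_right h7 h8.le
          _ = _ := h11
      exact le_of_mul_le_mul_left h10 (by linarith)
    have h12 : n * (B + 2) ≤ p * (D * (B + 2)) := by
      calc n * (B + 2) ≤ D * p * (B + 2) := mul_le_mul_of_nonneg_right hnD (by linarith)
        _ = _ := by ring
    linarith
  -- the slopes
  have hT3 : ∀ t ∈ T, 3 ≤ m t := by
    intro t ht
    rw [hT] at ht
    obtain ⟨u, hu, rfl⟩ := Finset.mem_image.1 ht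
    obtain ⟨hu1, hu2⟩ := Finset.mem_filter.1 hu
    rw [hmt]
    exact MA1.three_le hSneg hS0 hu1 fun h => hu2 (hSre u hu1 h)
  have hTn : ∀ t, (m t : ℝ) ≤ n := by
    intro t
    rw [hmt]
    exact (Nat.cast_le.2 (Finset.card_filter_le _ _)).trans hSn
  have hln : 0 ≤ Real.log n := Real.log_nonneg hn1
  have hlog1 : (1 : ℝ) ≤ 16 * (1 + Real.log n) := by linarith
  -- the rich line
  have key : ∃ z : ℂ, z ≠ 0 ∧ ∃ q ∈ P, Real.sqrt p ≤ (16 * (1 + Real.log n)) ^ a *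
      (11 ^ d * K₁ * ((P.filter (fun q' => q' - q ∈ lin z)).card : ℝ)) := by
    by_cases hcase : ∃ t ∈ T, n < (m t : ℝ) ^ 2
    · obtain ⟨t, -, ht⟩ := hcase
      obtain ⟨q, hq, hqM⟩ := hpar A E Φ f G P p₀ ⟨1, t⟩ hd hPne hP
      refine ⟨⟨1, t⟩, fun h => ?_, q, hq, ?_⟩
      · have := congrArg Complex.re h
        simp at this
      · have hm1 : (m t : ℝ) ≤ cnt f (lz Φ G ⟨1, t⟩) 4 := by
          rw [hmt]
          refine Nat.cast_le.2 (MA1.card_le (Φ := Φ) (hd.lz _) fun u hu => ?_)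
          obtain ⟨hu1, hu2⟩ := Finset.mem_filter.1 hu
          obtain ⟨x, g1, l1, rfl⟩ := (memS u).1 hu1
          exact ⟨x, MA1.mem_lz_slope g1 hu2, l1, rfl⟩
        have h2 : p * (cnt f (lz Φ G ⟨1, t⟩) 4 : ℝ) ≤
            p * (11 ^ d * K₁ * ((P.filter (fun q' => q' - q ∈ lin ⟨1, t⟩)).card : ℝ)) := by
          calc p * (cnt f (lz Φ G ⟨1, t⟩) 4 : ℝ)
              ≤ cnt f G 5 * ((P.filter (fun q' => q' - q ∈ lin ⟨1, t⟩)).card : ℝ) := hqM
            _ ≤ 11 ^ d * (K₁ * p) * ((P.filter (fun q' => q' - q ∈ lin ⟨1, t⟩)).card : ℝ) :=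
                mul_le_mul_of_nonneg_right h5K (Nat.cast_nonneg _)
            _ = _ := by ring
        have h3 := le_of_mul_le_mul_left h2 (by linarith)
        have h4 : Real.sqrt p ≤ m t := by
          rw [Real.sqrt_le_left (Nat.cast_nonneg _)]
          linarith
        have h5 : (1 : ℝ) ≤ (16 * (1 + Real.log n)) ^ a := one_le_pow₀ hlog1
        have h6 := (h4.trans hm1).trans h3
        have h7 : 0 ≤ 11 ^ d * K₁ * ((P.filter (fun q' => q' - q ∈ lin ⟨1, t⟩)).card : ℝ) := by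
          positivity
        exact h6.trans (le_mul_of_one_le_left h7 h5)
    · have hcase' : ∀ t ∈ T, (m t : ℝ) ^ 2 ≤ n := fun t ht =>
        not_lt.1 fun h => hcase ⟨t, ht, h⟩
      have hSS : (((S ×ˢ S).image (fun p => p.1 + p.2)).card : ℝ) ≤ cnt f G 8 := by
        refine Nat.cast_le.2 (MA1.card_le (Φ := Φ) hd fun u hu => ?_)
        obtain ⟨⟨v, w⟩, hvw, rfl⟩ := Finset.mem_image.1 hu
        obtain ⟨hv, hw⟩ := Finset.mem_product.1 hvw
        obtain ⟨x, g1, l1, e1⟩ := (memS v).1 hv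
        obtain ⟨y, g2, l2, e2⟩ := (memS w).1 hw
        refine ⟨x + y, G.add_mem g1 g2, ?_, ?_⟩
        · rw [map_add]
          have := norm_add_le (f x) (f y)
          linarith
        · rw [map_add, e1, e2]
      have hj : ∀ j : ℝ, 3 ≤ j →
          ((T.filter (fun t => j ≤ (m t : ℝ))).card : ℝ) * j ^ 2 ≤ 18 * 5 ^ d * n := by
        intro j hj3
        set Θ := T.filter (fun t => j ≤ (m t : ℝ)) with hΘ
        have hK0 : n ≤ 18 * 5 ^ d * n := by
          have : 1 ≤ 18 * (5 : ℝ) ^ d := by linarith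
          nlinarith
        rcases Nat.lt_or_ge Θ.card 2 with h2 | h2
        · rcases Finset.eq_empty_or_nonempty Θ with h0 | ⟨t, ht⟩
          · rw [h0]
            simp only [Finset.card_empty, Nat.cast_zero, zero_mul]
            linarith
          · have h3 : Θ.card = 1 := by
              have := Finset.card_pos.2 ⟨t, ht⟩
              omega
            obtain ⟨ht1, ht2⟩ := Finset.mem_filter.1 ht
            rw [h3, Nat.cast_one, one_mul]
            calc j ^ 2 ≤ (m t : ℝ) ^ 2 := pow_le_pow_left₀ (by linarith) ht2 2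
              _ ≤ n := hcase' t ht1
              _ ≤ _ := hK0
        · have h3 := hslp S Θ j hSneg hj3 fun t ht => by
            have := (Finset.mem_filter.1 ht).2
            rw [hmt] at this
            exact this
          have h5 : (2 : ℝ) ≤ Θ.card := by exact_mod_cast h2
          have h6 : (Θ.card : ℝ) * j ^ 2 ≤ 2 * (((Θ.card : ℝ) - 1) * j ^ 2) := by
            nlinarith [sq_nonneg j]
          calc (Θ.card : ℝ) * j ^ 2 ≤ 2 * (((Θ.card : ℝ) - 1) * j ^ 2) := h6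
            _ ≤ 2 * (9 * (5 ^ d * n)) := by linarith
            _ = _ := by ring
      obtain ⟨L, j, hL2, hLn, hLj, hLN⟩ := hB T m n hn1
        (fun t ht => ⟨hT3 t ht, hTn t⟩) hj (by rw [← hX]; exact hBn)
      have hL1 : 1 ≤ L := by linarith
      have hL0 : 0 < L := by linarith
      obtain ⟨c, hc, A', iA1, iA2, E', iE1, iE2, Φ', f', G', hd', hfd', hrk'', hppr, hlift,
        hcnt⟩ := hC₃ A E Φ f G L hd hfd hrk hL2
      have hjΘ : ∀ t ∈ T.filter (fun t => j ≤ (m t : ℝ)), j ≤ cnt f' (lp Φ' G' t) 4 := by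
        intro t ht
        refine (Finset.mem_filter.1 ht).2.trans ?_
        rw [hmt]
        refine Nat.cast_le.2 (MA1.card_le (Φ := Φ') (hd'.lp t) fun u hu => ?_)
        obtain ⟨hu1, hu2⟩ := Finset.mem_filter.1 hu
        obtain ⟨x, g1, l1, rfl⟩ := (memS u).1 hu1
        obtain ⟨x', g2, l2, e2⟩ := hlift x g1
        exact ⟨x', mem_lp.2 ⟨g2, by rw [e2]; exact hu2⟩, l2.trans l1, e2⟩
      have hcnt4 : (cnt f' G' 4 : ℝ) ≤
          L ^ (c + 1) * (T.filter (fun t => j ≤ (m t : ℝ))).card * j ^ 2 := by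
        calc (cnt f' G' 4 : ℝ) ≤ L ^ c * n := hcnt 4 (by norm_num)
          _ ≤ L ^ c * (L * (T.filter (fun t => j ≤ (m t : ℝ))).card * j ^ 2) :=
              mul_le_mul_of_nonneg_left hLN (by positivity)
          _ = _ := by ring
      have hL' : 2 ≤ L ^ (c + 1) := by
        calc (2 : ℝ) ≤ L := hL2
          _ = L ^ 1 := (pow_one L).symm
          _ ≤ L ^ (c + 1) := pow_le_pow_right₀ hL1 (by omega)
      have hpowle : (L ^ (c + 1)) ^ C ≤ L ^ Cc := by
        rw [← pow_mul, hCc]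
        exact pow_le_pow_right₀ hL1 (Nat.mul_le_mul_right C (by omega))
      have hppr' : Ppr Φ' f' G' ((L ^ (c + 1)) ^ C * 4) := by
        refine hppr.mono ?_
        have h4 : (4 : ℝ) ≤ (L ^ 2) ^ C := by
          calc (4 : ℝ) = 2 ^ 2 := by norm_num
            _ ≤ L ^ 2 := pow_le_pow_left₀ (by norm_num) hL2 2
            _ = (L ^ 2) ^ 1 := (pow_one _).symm
            _ ≤ (L ^ 2) ^ C := pow_le_pow_right₀ (one_le_pow₀ hL1) hC1
        calc (L ^ (c + 1)) ^ C * 4 ≤ (L ^ (c + 1)) ^ C * (L ^ 2) ^ C :=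
              mul_le_mul_of_nonneg_left h4 (by positivity)
          _ = (L ^ (3 + c)) ^ C := by
              rw [← mul_pow, ← pow_add]
              congr 2
              omega
      obtain ⟨z, hz, hzn⟩ := hstruc A' E' Φ' f' G' (T.filter (fun t => j ≤ (m t : ℝ)))
        (L ^ (c + 1)) j 4 hd' hfd' hrk'' hL' (hpowle.trans hLj) (by norm_num) hppr' hjΘ hcnt4
      have hP' : ∀ q ∈ P, ∃ x ∈ G', ‖f' x‖ ≤ 1 ∧ Φ' x = q - p₀ := by
        intro q hq
        obtain ⟨x, g1, l1, e1⟩ := hP q hq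
        obtain ⟨x', g2, l2, e2⟩ := hlift x g1
        exact ⟨x', g2, l2.trans l1, e2.trans e1⟩
      obtain ⟨q, hq, hqM⟩ := hpar A' E' Φ' f' G' P p₀ z hd' hPne hP'
      refine ⟨z, hz, q, hq, ?_⟩
      obtain ⟨M, hM⟩ : ∃ M : ℝ, M = ((P.filter (fun q' => q' - q ∈ lin z)).card : ℝ) := ⟨_, rfl⟩
      have hM0 : 0 ≤ M := by rw [hM]; exact Nat.cast_nonneg _
      rw [← hM] at hqM ⊢
      obtain ⟨Y, hY⟩ : ∃ Y : ℝ, Y = (cnt f' (lz Φ' G' z) 4 : ℝ) := ⟨_, rfl⟩
      have hY0 : 0 ≤ Y := by rw [hY]; exact Nat.cast_nonneg _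
      rw [← hY] at hqM hzn
      have hYM : Y ≤ L ^ c * (11 ^ d * K₁ * M) := by
        have h1 : (cnt f' G' 5 : ℝ) ≤ L ^ c * (11 ^ d * (K₁ * p)) :=
          (hcnt 5 (by norm_num)).trans (mul_le_mul_of_nonneg_left h5K (by positivity))
        have h2 : p * Y ≤ p * (L ^ c * (11 ^ d * K₁ * M)) := by
          calc p * Y ≤ cnt f' G' 5 * M := hqM
            _ ≤ L ^ c * (11 ^ d * (K₁ * p)) * M := mul_le_mul_of_nonneg_right h1 hM0
            _ = _ := by ring
        exact le_of_mul_le_mul_left h2 (by linarith)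
      have hpY : p ≤ (L ^ (c + 1)) ^ C * Y ^ 2 := by
        refine le_trans ?_ hzn
        exact Nat.cast_le.2 ((hPsys A' _ E' _ Φ' f' G' hd' hP').trans
          (cnt_mono hd' (by norm_num)))
      have hsq := MA1.sqrt_le (one_le_pow₀ (one_le_pow₀ hL1)) hY0 hpY
      calc Real.sqrt p ≤ (L ^ (c + 1)) ^ C * Y := hsq
        _ ≤ L ^ Cc * (L ^ c * (11 ^ d * K₁ * M)) :=
            mul_le_mul hpowle hYM hY0 (by positivity)
        _ = L ^ (Cc + c) * (11 ^ d * K₁ * M) := by rw [pow_add]; ring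
        _ ≤ L ^ a * (11 ^ d * K₁ * M) := by
            refine mul_le_mul_of_nonneg_right (pow_le_pow_right₀ hL1 (by omega)) (by positivity)
        _ ≤ (16 * (1 + Real.log n)) ^ a * (11 ^ d * K₁ * M) :=
            mul_le_mul_of_nonneg_right (pow_le_pow_left₀ hL0.le hLn a) (by positivity)
  obtain ⟨z, hz, q, hq, hM⟩ := key
  refine ⟨z, hz, q, hq, ?_⟩
  exact MA1.final a (11 ^ d * K₁) D n p _ hD1 (one_le_mul_of_one_le_of_one_le h11d hK1) hp3 hpn
    hnD (Nat.cast_nonneg _) hM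

end Pool.Agent.PLX.H66
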