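import Pool.Agent.PLX.StmtsB

/-!
# Squad PLX (MP_1fc801_co), row DPL: the lines have at most half of the rank
-/

set_option autoImplicit false

namespace Pool.Agent.PLX.H66D

open Module

/-- **DPL** -/
theorem dpl (cov : CovStmt) (slc : SlcStmt) (gru : GruStmt) : DplStmt := by
  intro d c b
  obtain ⟨K, hK⟩ : ∃ K : ℕ, K = 18 * 45 ^ d * (4 * (d + 2)) ^ (2 * d) + 8 * (d + 1) := ⟨_, rfl⟩
  obtain ⟨k, hk⟩ : ∃ k : ℕ, k = 3 * (12 * (d + 2)) ^ d := ⟨_, rfl⟩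
  refine ⟨(K + (b + 2 * c * d)) + 1 + k + c * d, ?_⟩
  intro A _ _ E _ _ Φ f G Θ L j ρ α hfin hD hd hL hj hP hρ0 hρ hΘ ht hcnt
  by_contra hcon
  have hdα : d + 1 ≤ 2 * α := by omega
  have hL0 : 0 < L := by linarith
  have hL1 : 1 ≤ L := by linarith
  have hKL : (K : ℝ) < L ^ K := by
    have h1 : (K : ℝ) < 2 ^ K := by exact_mod_cast Nat.lt_two_pow_self
    exact h1.trans_le (pow_le_pow_left₀ (by norm_num) hL K)
  have hkL : (k : ℝ) ≤ L ^ k := by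
    have h1 : (k : ℝ) < 2 ^ k := by exact_mod_cast Nat.lt_two_pow_self
    exact (h1.trans_le (pow_le_pow_left₀ (by norm_num) hL k)).le
  obtain ⟨M, hM⟩ : ∃ M : ℝ, M = L ^ c := ⟨_, rfl⟩
  obtain ⟨R, hR⟩ : ∃ R : ℝ, R = L ^ (K + (b + 2 * c * d)) := ⟨_, rfl⟩
  have hM1 : 1 ≤ M := hM ▸ one_le_pow₀ hL1
  have hM0 : 0 < M := by linarith
  have hR1 : 1 ≤ R := hR ▸ one_le_pow₀ hL1
  have hR0 : 0 < R := by linarith
  have hr0 : 0 < 1 / M := by positivity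
  have hr1 : 1 / M ≤ 1 := by rw [div_le_one hM0]; exact hM1
  rw [← hM] at hρ
  -- the size of `R`
  have hRK : (K : ℝ) * (L ^ b * M ^ (2 * d)) < R := by
    have h1 : R = L ^ K * (L ^ b * M ^ (2 * d)) := by
      rw [hR, hM, ← pow_mul, ← pow_add, ← pow_add]
      congr 1
      ring
    rw [h1]
    exact mul_lt_mul_of_pos_right hKL (by positivity)
  have hKR : (K : ℝ) ≤ R := by
    have h1 : (1 : ℝ) ≤ L ^ b * M ^ (2 * d) := by
      have := mul_le_mul (one_le_pow₀ hL1 (n := b)) (one_le_pow₀ hM1 (n := 2 * d)) zero_le_one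
        (by positivity)
      simpa using this
    have h2 : (K : ℝ) * 1 ≤ K * (L ^ b * M ^ (2 * d)) :=
      mul_le_mul_of_nonneg_left h1 (Nat.cast_nonneg K)
    linarith
  have hKc : (K : ℝ) = 18 * 45 ^ d * (4 * ((d : ℝ) + 2)) ^ (2 * d) + 8 * ((d : ℝ) + 1) := by
    rw [hK]; push_cast; ring
  have hkc : (k : ℝ) = 3 * (12 * ((d : ℝ) + 2)) ^ d := by
    rw [hk]; push_cast; ring
  have hd0 : (0 : ℝ) ≤ d := Nat.cast_nonneg d
  have hα : α ≤ d := by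
    have hne : Θ.Nonempty := Finset.card_pos.1 (by omega)
    obtain ⟨t, htΘ⟩ := hne
    have h1 := (ht t htΘ).2.1
    rw [← h1, ← hd]
    exact Submodule.finrank_le _
  have hαr : (α : ℝ) ≤ d := by exact_mod_cast hα
  have hα0 : (0 : ℝ) ≤ α := Nat.cast_nonneg α
  have hj0 : 0 < j := lt_of_lt_of_le (by positivity) hj
  obtain ⟨D, hDd⟩ : ∃ D : ℝ, D = (3 * M) ^ d * (4 * ((d : ℝ) + 2)) ^ d := ⟨_, rfl⟩
  have hD0 : 0 < D := by rw [hDd]; positivity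
  have hRα : 1 ≤ R ^ α := one_le_pow₀ hR1
  -- the lines
  have hq : ∀ t ∈ Θ, j * R ^ α / D ≤ cnt f (lp Φ G t) R := by
    intro t htΘ
    obtain ⟨h1, h2, h3⟩ := ht t htΘ
    rw [← hM] at h3
    have hV : Dsc f (lp Φ G t) := hD.lp t
    have h4 := cov A E f (lp Φ G t) 1 (1 / M) d hV zero_le_one hr0 (by
      rw [← hd]; exact Submodule.finrank_le _)
    have h5 : (1 + 2 * 1 / (1 / M) : ℝ) ≤ 3 * M := by
      have : (1 + 2 * 1 / (1 / M) : ℝ) = 1 + 2 * M := by field_simp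
      rw [this]; linarith
    have h6 : (cnt f (lp Φ G t) 1 : ℝ) ≤ (3 * M) ^ d * cnt f (lp Φ G t) (1 / M) := by
      refine h4.trans (mul_le_mul_of_nonneg_right ?_ (Nat.cast_nonneg _))
      exact pow_le_pow_left₀ (by positivity) h5 d
    have h7 := gru A E f (lp Φ G t) α ρ (1 / M) R hV hρ0 hρ (by
      have h8 : 8 * ((α : ℝ) + 1) * (1 / M) ≤ 8 * ((α : ℝ) + 1) * 1 :=
        mul_le_mul_of_nonneg_left hr1 (by positivity)
      have h9 : (0 : ℝ) ≤ 18 * 45 ^ d * (4 * ((d : ℝ) + 2)) ^ (2 * d) := by positivity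
      linarith) h2 h3
    have h8 : (4 * ((α : ℝ) + 2) * (1 / M)) ^ α ≤ (4 * ((d : ℝ) + 2)) ^ d := by
      have h9 : 4 * ((α : ℝ) + 2) * (1 / M) ≤ 4 * ((d : ℝ) + 2) := by
        have h10 : 4 * ((α : ℝ) + 2) * (1 / M) ≤ 4 * ((α : ℝ) + 2) * 1 :=
          mul_le_mul_of_nonneg_left hr1 (by positivity)
        linarith
      refine (pow_le_pow_left₀ (by positivity) h9 α).trans ?_
      exact pow_le_pow_right₀ (by linarith) hα
    have h9 : R ^ α * (cnt f (lp Φ G t) (1 / M) : ℝ)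
        ≤ (4 * ((d : ℝ) + 2)) ^ d * cnt f (lp Φ G t) R :=
      h7.trans (mul_le_mul_of_nonneg_right h8 (Nat.cast_nonneg _))
    rw [div_le_iff₀ hD0, hDd]
    calc j * R ^ α ≤ ((3 * M) ^ d * cnt f (lp Φ G t) (1 / M)) * R ^ α :=
          mul_le_mul_of_nonneg_right (h1.trans h6) (by positivity)
      _ = (3 * M) ^ d * (R ^ α * (cnt f (lp Φ G t) (1 / M) : ℝ)) := by ring
      _ ≤ (3 * M) ^ d * ((4 * ((d : ℝ) + 2)) ^ d * cnt f (lp Φ G t) R) :=
          mul_le_mul_of_nonneg_left h9 (by positivity)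
      _ = cnt f (lp Φ G t) R * ((3 * M) ^ d * (4 * ((d : ℝ) + 2)) ^ d) := by ring
  have hq3 : 3 ≤ j * R ^ α / D := by
    rw [le_div_iff₀ hD0]
    have h1 : 3 * D = k * M ^ d := by
      rw [hDd, hkc, mul_pow, mul_pow, mul_pow]
      have : (12 : ℝ) ^ d = 3 ^ d * 4 ^ d := by rw [← mul_pow]; norm_num
      rw [this]; ring
    have h2 : L ^ k * M ^ d ≤ L ^ (K + (b + 2 * c * d) + 1 + k + c * d) := by
      rw [hM, ← pow_mul, ← pow_add]
      exact pow_le_pow_right₀ hL1 (by omega)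
    calc 3 * D = k * M ^ d := h1
      _ ≤ L ^ k * M ^ d := mul_le_mul_of_nonneg_right hkL (by positivity)
      _ ≤ j := h2.trans hj
      _ = j * 1 := (mul_one j).symm
      _ ≤ j * R ^ α := mul_le_mul_of_nonneg_left hRα hj0.le
  have h2R : 2 * R ≤ L ^ (K + (b + 2 * c * d) + 1 + k + c * d) := by
    calc 2 * R ≤ L * R := mul_le_mul_of_nonneg_right hL hR0.le
      _ = L ^ (K + (b + 2 * c * d) + 1) := by rw [hR, pow_succ, mul_comm]
      _ ≤ _ := pow_le_pow_right₀ hL1 (by omega)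
  have h1 := slc A E Φ f G Θ R (j * R ^ α / D) hD hR0.le hq3 (hP.mono h2R) hq
  have h2 := cov A E f G (2 * R) 1 d hD (by linarith) one_pos (by
    rw [← hd]; exact Submodule.finrank_le _)
  have h3 : (1 + 2 * (2 * R) / 1 : ℝ) ≤ 5 * R := by
    rw [div_one]; linarith
  have h4 : (cnt f G (2 * R) : ℝ) ≤ (5 * R) ^ d * cnt f G 1 :=
    h2.trans (mul_le_mul_of_nonneg_right (pow_le_pow_left₀ (by positivity) h3 d)
      (Nat.cast_nonneg _))
  have hΘr : (2 : ℝ) ≤ Θ.card := by exact_mod_cast hΘ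
  have hΘ1 : (0 : ℝ) < Θ.card - 1 := by linarith
  have h5 : ((Θ.card : ℝ) - 1) * (j * R ^ α / D) ^ 2
      ≤ ((Θ.card : ℝ) - 1) * (18 * (5 * R) ^ d * L ^ b * j ^ 2) := by
    calc ((Θ.card : ℝ) - 1) * (j * R ^ α / D) ^ 2 ≤ 9 * cnt f G (2 * R) := h1
      _ ≤ 9 * ((5 * R) ^ d * cnt f G 1) := by linarith
      _ ≤ 9 * ((5 * R) ^ d * (L ^ b * Θ.card * j ^ 2)) := by
          have : (5 * R) ^ d * (cnt f G 1 : ℝ) ≤ (5 * R) ^ d * (L ^ b * Θ.card * j ^ 2) :=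
            mul_le_mul_of_nonneg_left hcnt (by positivity)
          linarith
      _ = (9 * (5 * R) ^ d * L ^ b * j ^ 2) * Θ.card := by ring
      _ ≤ (9 * (5 * R) ^ d * L ^ b * j ^ 2) * (2 * ((Θ.card : ℝ) - 1)) :=
          mul_le_mul_of_nonneg_left (by linarith) (by positivity)
      _ = _ := by ring
  have h6 : (j * R ^ α / D) ^ 2 ≤ 18 * (5 * R) ^ d * L ^ b * j ^ 2 :=
    le_of_mul_le_mul_left h5 hΘ1
  rw [div_pow, div_le_iff₀ (by positivity)] at h6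
  have h7 : j ^ 2 * R ^ (2 * α) ≤ j ^ 2 * (18 * (5 * R) ^ d * L ^ b * D ^ 2) := by
    calc j ^ 2 * R ^ (2 * α) = (j * R ^ α) ^ 2 := by rw [mul_pow, ← pow_mul, mul_comm α 2]
      _ ≤ _ := h6
      _ = _ := by ring
  have h8 : R ^ (2 * α) ≤ 18 * (5 * R) ^ d * L ^ b * D ^ 2 :=
    le_of_mul_le_mul_left h7 (by positivity)
  have h9 : R ^ (d + 1) ≤ R ^ (2 * α) := pow_le_pow_right₀ hR1 hdα
  have h10 : 18 * (5 * R) ^ d * L ^ b * D ^ 2
      = R ^ d * (18 * 45 ^ d * (4 * ((d : ℝ) + 2)) ^ (2 * d) * (L ^ b * M ^ (2 * d))) := by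
    have e1 : (45 : ℝ) ^ d = 5 ^ d * (3 ^ d * 3 ^ d) := by
      rw [← mul_pow, ← mul_pow]; norm_num
    rw [hDd, e1, mul_pow 5 R, mul_pow 3 M, two_mul, pow_add, pow_add]
    ring
  have h11 : R ^ d * R ≤ R ^ d * (18 * 45 ^ d * (4 * ((d : ℝ) + 2)) ^ (2 * d)
      * (L ^ b * M ^ (2 * d))) := by
    rw [← h10, ← pow_succ]
    exact h9.trans h8
  have h12 := le_of_mul_le_mul_left h11 (by positivity)
  have h13 : 18 * 45 ^ d * (4 * ((d : ℝ) + 2)) ^ (2 * d) * (L ^ b * M ^ (2 * d))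
      ≤ K * (L ^ b * M ^ (2 * d)) := by
    refine mul_le_mul_of_nonneg_right ?_ (by positivity)
    rw [hKc]
    linarith
  linarith

end Pool.Agent.PLX.H66D
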